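import Pool.Agent.Helper70.SUB.SheetW
import Pool.Agent.Helper47.SUBW.SLL
import Pool.Agent.Helper78.SUBK.LAU2K

/-!
Project SUBW, row LAUW: size of the terms of a Laurent polynomial with slow coefficients.
-/

set_option autoImplicit false

namespace Pool.Agent.Helper78.SUBW

open Filter Finset Pool.Agent.Helper70.SUB Pool.Agent.Helper77.SUBK Pool.Agent.Helper70.SUBL
  Pool.Agent.Helper70.SUBW Pool.Agent.Helper47.SUBW

section Rep

variable {M : Type} [Field M] (φ : Ultrafilter ℕ)

theorem gm_zpow (z : ℕ → M) (k : ℤ) : gm φ (fun j => z j ^ k) = gm φ z ^ k := by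
  cases k with
  | ofNat n =>
    simp only [Int.ofNat_eq_natCast, zpow_natCast]
    exact gm_pow φ z n
  | negSucc n =>
    simp only [zpow_negSucc]
    rw [gm_inv, gm_pow]

theorem gm_sum {ι : Type} (s : Finset ι) (f : ι → ℕ → M) :
    gm φ (fun j => ∑ i ∈ s, f i j) = ∑ i ∈ s, gm φ (f i) := by
  classical
  induction s using Finset.induction_on with
  | empty => simp only [Finset.sum_empty]; exact gm_zero φ
  | insert a s ha ih =>
    simp only [Finset.sum_insert ha]
    rw [gm_add, ih]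

theorem gm_prod {ι : Type} (s : Finset ι) (f : ι → ℕ → M) :
    gm φ (fun j => ∏ i ∈ s, f i j) = ∏ i ∈ s, gm φ (f i) := by
  classical
  induction s using Finset.induction_on with
  | empty => simp only [Finset.prod_empty]; exact gm_one φ
  | insert a s ha ih =>
    simp only [Finset.prod_insert ha]
    rw [gm_mul, ih]

theorem gm_monM {r : ℕ} (w : Fin r → ℕ → M) (m : Fin r → ℤ) :
    gm φ (fun j => monM (fun k => w k j) m) = monM (fun k => gm φ (w k)) m := by
  unfold monM
  rw [gm_prod]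
  exact Finset.prod_congr rfl fun k _ => gm_zpow φ _ _

/-- the value of a Laurent polynomial over the ultrapower, as a sequence -/
theorem evW_eq {r : ℕ} (w : Fin r → ℕ → M) (F : LauM (UP M φ) r) (c : (Fin r → ℤ) → ℕ → M)
    (hc : ∀ m, gm φ (c m) = F.coeff m) :
    evW w F = gm φ (fun j => ∑ m ∈ Finsupp.support F.coeff, c m j * monM (fun k => w k j) m) := by
  unfold evW evM
  rw [gm_sum]
  refine Finset.sum_congr rfl fun m _ => ?_
  rw [gm_mul, gm_monM, hc]

end Rep

section Slow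

variable {M : Type} [Field M] [NumberField M] {S : Finset ℕ} {P : PF S M}
  {φ : Ultrafilter ℕ} {X : ℕ → ℝ} {r : ℕ}

/-- representatives of the coefficients -/
theorem exists_rep {F : LauM (UP M φ) r} (hF : SlL P φ X F) :
    ∃ c : (Fin r → ℤ) → ℕ → M, (∀ m, Slw P φ X (c m)) ∧ (∀ m, gm φ (c m) = F.coeff m) ∧
      (∀ m ∈ Finsupp.support F.coeff, ∀ᶠ j in (φ : Filter ℕ), c m j ≠ 0) ∧
      ∀ (w : Fin r → ℕ → M) (f : ℕ → M), gm φ f = evW w F → ∀ᶠ j in (φ : Filter ℕ),
        f j = ∑ m ∈ Finsupp.support F.coeff, c m j * monM (fun k => w k j) m := by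
  choose c hc1 hc2 using hF
  refine ⟨c, hc1, hc2, ?_, ?_⟩
  · intro m hm
    rw [Ultrafilter.eventually_not]
    intro h
    apply Finsupp.mem_support_iff.1 hm
    rw [← hc2 m, ← gm_zero φ, gm_eq]
    exact h
  · intro w f hf
    rw [evW_eq φ w F c hc2, gm_eq] at hf
    exact hf

/-- the ratio of two monomials is not slow -/
theorem ratio_not_slw {w : Fin r → ℕ → M} (hSLW7 : ∀ z z' : ℕ → M,
      (∀ᶠ j in (φ : Filter ℕ), z j = z' j) → Slw P φ X z → Slw P φ X z')
    (hw : ∀ k, MU P φ X (w k)) (hInd : IndW P φ X w) {m m' : Fin r → ℤ} (hm : m ≠ m') :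
    ¬ Slw P φ X (fun j => monM (fun k => w k j) m / monM (fun k => w k j) m') := by
  intro h
  apply hInd (m - m') (sub_ne_zero.2 hm)
  refine hSLW7 _ _ ?_ h
  have h1 : ∀ᶠ j in (φ : Filter ℕ), ∀ k, SV S (w k j) := by
    rw [Filter.eventually_all]
    exact fun k => (hw k).1
  refine h1.mono fun j hj => ?_
  exact (Pool.Agent.Helper78.SUBK.monM_sub (fun k => (hj k).1) m m').symm

end Slow

theorem LAUW (hU2 : ST_U2W) (hSLW : ST_SLW) (hSPW : ST_SPW) : ST_LAUW := by
  classical
  intro M _ _ _ S P φ X r w F f v σ ε hS hX hw hInd hF hf hv hε m hm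
  obtain ⟨-, -, -, -, -, -, slw7, -⟩ := hSLW M S P φ X hS hX
  obtain ⟨-, -, -, -, spw5, -⟩ := hSPW M S P φ X hS hX
  obtain ⟨c, hc1, hc2, hc3, hc4⟩ := exists_rep hF
  have h1 := hU2 M S P φ X (Finsupp.support F.coeff) (fun m => c m)
    (fun m j => monM (fun k => w k j) m) v σ ⟨m, hm⟩ ε hS hX (fun m => hc1 m)
    (fun m => hc3 m m.2) (fun m => spw5 r w m hw)
    (fun i i' hii => ratio_not_slw slw7 hw hInd fun h => hii (Subtype.ext h)) hv hε
  refine ((hc4 w f hf).and h1).mono fun j hj => ?_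
  obtain ⟨h2, h3⟩ := hj
  have e1 : ∑ i : Finsupp.support F.coeff, c i j * monM (fun k => w k j) i =
      ∑ m ∈ Finsupp.support F.coeff, c m j * monM (fun k => w k j) m :=
    Finset.sum_coe_sort (Finsupp.support F.coeff) (fun m => c m j * monM (fun k => w k j) m)
  rw [h2, ← e1]
  exact h3

end Pool.Agent.Helper78.SUBW
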